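import Mathlib
import Pool.Agent.V1186.BVM

set_option autoImplicit false

namespace Pool.Agent.Results.MP_fa2b2f_an.NoClosedRepQ2

open Filter Topology Set MeasureTheory
open scoped ENNReal NNReal
open Pool.Agent.V1186.BVM

/-- The functional `Per (A) + λ m (Ω Δ A)`. -/
noncomputable def functional {X : Type*} [MetricSpace X] [MeasurableSpace X] (m : Measure X)
    (Ω : Set X) (lam : ℝ) (A : Set X) : ℝ≥0∞ :=
  perimeter m A + ENNReal.ofReal lam * m (symmDiff Ω A)

/-- `E` is a minimizer of the functional among all Borel subsets of `X`. -/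
def IsMinimizer {X : Type*} [MetricSpace X] [MeasurableSpace X] (m : Measure X)
    (Ω : Set X) (lam : ℝ) (E : Set X) : Prop :=
  MeasurableSet E ∧
    ∀ A : Set X, MeasurableSet A → functional m Ω lam E ≤ functional m Ω lam A

/-- On the real line with Lebesgue measure plus a unit mass at `0`, the interval `(0, L)` is a
minimizer of `Per (A) + λ m (Ω Δ A)` for `Ω = (0, L)` when `L ≥ 2 / λ`, and it has no closed
representative. -/
theorem result (lam L : ℝ) (hlam : 0 < lam) (hL : 2 / lam ≤ L) :
    (∀ S : Set ℝ, Bornology.IsBounded S → (volume + Measure.dirac 0 : Measure ℝ) S < ⊤) ∧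
    IsOpen (Ioo 0 L) ∧ IsConnected (Ioo 0 L) ∧ Bornology.IsBounded (Ioo 0 L) ∧
    IsMinimizer (volume + Measure.dirac 0 : Measure ℝ) (Ioo 0 L) lam (Ioo 0 L) ∧
    ∀ C : Set ℝ, IsClosed C → 0 < (volume + Measure.dirac 0 : Measure ℝ) (symmDiff (Ioo 0 L) C) := by
  have hL0 : 0 < L := lt_of_lt_of_le (by positivity) hL
  have hlamL : 2 ≤ lam * L := by
    rw [div_le_iff₀ hlam] at hL; linarith
  refine ⟨fun S hS => mLine_bounded hS, isOpen_Ioo, isConnected_Ioo hL0, Metric.isBounded_Ioo 0 L,
    ⟨measurableSet_Ioo, ?_⟩, fun C hC => no_closed hL0 hC⟩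
  change ∀ A : Set ℝ, MeasurableSet A →
    functional mLine (Ioo 0 L) lam (Ioo 0 L) ≤ functional mLine (Ioo 0 L) lam A
  intro A hA
  have h1 : functional mLine (Ioo 0 L) lam (Ioo 0 L) ≤ 2 := by
    unfold functional
    rw [symmDiff_self, bot_eq_empty, measure_empty, mul_zero, add_zero]
    exact perimeter_Ioo_le hL0
  refine h1.trans ?_
  by_cases h0 : volume A = 0
  · have h2 : ENNReal.ofReal L ≤ volume (symmDiff (Ioo 0 L) A) := by
      have : volume (Ioo 0 L) ≤ volume (symmDiff (Ioo 0 L) A) + volume A := by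
        refine (measure_mono ?_).trans (measure_union_le _ _)
        intro x hx
        by_cases hxA : x ∈ A
        · exact Or.inr hxA
        · exact Or.inl (Or.inl ⟨hx, hxA⟩)
      rw [h0, add_zero, Real.volume_Ioo, sub_zero] at this
      exact this
    calc (2 : ℝ≥0∞) = ENNReal.ofReal 2 := by simp
      _ ≤ ENNReal.ofReal (lam * L) := ENNReal.ofReal_le_ofReal hlamL
      _ = ENNReal.ofReal lam * ENNReal.ofReal L := ENNReal.ofReal_mul hlam.le
      _ ≤ ENNReal.ofReal lam * mLine (symmDiff (Ioo 0 L) A) :=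
          mul_le_mul_right (h2.trans (volume_le_mLine _)) _
      _ ≤ functional mLine (Ioo 0 L) lam A := le_add_self
  · by_cases hfin : volume A = ⊤
    · have h2 : volume (symmDiff (Ioo 0 L) A) = ⊤ := by
        have h3 : volume A ≤ volume (symmDiff (Ioo 0 L) A) + volume (Ioo 0 L) := by
          refine (measure_mono ?_).trans (measure_union_le _ _)
          intro x hx
          by_cases hxA : x ∈ Ioo 0 L
          · exact Or.inr hxA
          · exact Or.inl (Or.inr ⟨hx, hxA⟩)
        rw [hfin, top_le_iff, ENNReal.add_eq_top] at h3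
        rcases h3 with h3 | h3
        · exact h3
        · rw [Real.volume_Ioo] at h3
          exact absurd h3 ENNReal.ofReal_ne_top
      have h4 : mLine (symmDiff (Ioo 0 L) A) = ⊤ := by
        rw [← top_le_iff, ← h2]
        exact volume_le_mLine _
      unfold functional
      rw [h4, ENNReal.mul_top (by rw [ne_eq, ENNReal.ofReal_eq_zero, not_le]; exact hlam),
        add_top]
      exact le_top
    · exact (two_le_perimeter hA h0 hfin).trans le_self_add

end Pool.Agent.Results.MP_fa2b2f_an.NoClosedRepQ2
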